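import Pool.Agent.FTwo.Cond
import Pool.Agent.FDia.Cond
import Pool.Agent.Forc.MSide

/-!
# The number of nice names for subsets of `ω₁`
-/

universe u

set_option linter.unusedSectionVars false

namespace Pool.Agent.FTwo

open Pool.Agent.SigB Pool.Agent.Forc Pool.Agent.Frc
open Pool.Agent.FDia (W1)

variable {M : Type u} [Membership M M] [IsZFC M]

/-- Composition with an injection. -/
theorem le_fs {A B C : M} (h : Le B C) : Le (fs A B) (fs A C) := by
  obtain ⟨j, hj, hi⟩ := h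
  have hv := (mem_fs.1 hj).2
  have hd : ∀ f : M, DT (fun w : Fin 1 → M => ap j (ap f (w 0))) := fun f => by
    simp (maxDischargeDepth := 50)
  refine Le.mk (F := fun f => lam A fun x => ap j (ap f x)) (by simp (maxDischargeDepth := 50))
    ?_ ?_
  · intro f hf
    exact lam_mem_fs (hd f) fun x hx => hv _ ((mem_fs.1 hf).2 x hx)
  · intro f g hf hg he
    refine (mem_fs.1 hf).1.ext (mem_fs.1 hg).1 fun x hx => ?_
    refine hi _ _ ((mem_fs.1 hf).2 x hx) ((mem_fs.1 hg).2 x hx) ?_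
    have h1 : ap (lam A fun x => ap j (ap f x)) x = ap (lam A fun x => ap j (ap g x)) x := by
      rw [he]
    rwa [ap_lam (hd f) hx, ap_lam (hd g) hx] at h1

/-- Functions into a power set. -/
theorem le_fs_pw {A X : M} : Le (fs A (pw X)) (pw (pd A X)) := by
  have hm : ∀ f z, z ∈ sp (pd A X) (fun z => ∃ a x, z = op a x ∧ x ∈ ap f a) ↔
      z ∈ pd A X ∧ ∃ a x, z = op a x ∧ x ∈ ap f a := fun f z =>
    mem_sp (by simp (maxDischargeDepth := 50))
  refine Le.mk (F := fun f => sp (pd A X) fun z => ∃ a x, z = op a x ∧ x ∈ ap f a)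
    (by simp (maxDischargeDepth := 50)) ?_ ?_
  · intro f _
    exact mem_pw.2 fun z hz => ((hm f z).1 hz).1
  · have key : ∀ f g, f ∈ fs A (pw X) → g ∈ fs A (pw X) →
        sp (pd A X) (fun z => ∃ a x, z = op a x ∧ x ∈ ap f a) =
          sp (pd A X) (fun z => ∃ a x, z = op a x ∧ x ∈ ap g a) →
        ∀ a, a ∈ A → Sb (ap f a) (ap g a) := by
      intro f g hf hg he a ha x hx
      have hxX := mem_pw.1 ((mem_fs.1 hf).2 a ha) x hx
      have h1 := (hm f (op a x)).2 ⟨op_mem_pd.2 ⟨ha, hxX⟩, a, x, rfl, hx⟩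
      rw [he] at h1
      obtain ⟨-, a', x', h2, h3⟩ := (hm g _).1 h1
      obtain ⟨rfl, rfl⟩ := op_inj.1 h2
      exact h3
    intro f g hf hg he
    exact (mem_fs.1 hf).1.ext (mem_fs.1 hg).1 fun a ha =>
      (key f g hf hg he a ha).antisymm (key g f hg hf he.symm a ha)

/-- The cardinal `2^ω₁`. -/
theorem exists_k {w : M} (hw : W1 w) :
    ∃ k : M, SigB.Ord k ∧ Sb SigB.om k ∧ Le (pw w) k ∧ Le k (pw w) := by
  obtain ⟨k, hk, h1, h2⟩ := exists_ord (pw w)
  have homw : (SigB.om : M) ∈ w := (hw.mem _ om_ord).2 (Le.refl _)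
  refine ⟨k, hk, ?_, h1, h2⟩
  refine (hk.not_mem_iff om_ord).1 fun h => ?_
  refine not_le_om h (Le.trans (Le.of_sb (hw.ord.sb homw)) (Le.trans ?_ h1))
  refine Le.mk (F := fun x => pr x x) (by simp (maxDischargeDepth := 50)) ?_ ?_
  · intro x hx
    refine mem_pw.2 fun z hz => ?_
    rw [mem_pr, or_self] at hz
    rw [hz]; exact hx
  · intro x y _ _ he
    have h1 : x ∈ pr x x := by simp
    rw [he, mem_pr, or_self] at h1
    exact h1

/-- `two` injects into an infinite ordinal. -/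
theorem two_le {k : M} (hom : Sb SigB.om k) : Le (two : M) k :=
  Le.of_sb fun z hz => hom z (om_ord.trans hz (sc_mem_om (sc_mem_om em_mem_om)))

/-- The number of conditions. -/
theorem le_cnd {k : M} (hk : SigB.Ord k) (hom : Sb SigB.om k) : Le (cnd k) k := by
  classical
  have h1 : Le (pd k two) k := ((Le.refl k).pd (two_le hom)).trans (hess hk hom)
  refine Le.trans ?_ (Le.seq_le hk hom h1)
  -- an enumeration of each condition
  obtain ⟨g, hg, hgs⟩ := choice' (a := cnd k) (b := Seq (pd k two))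
    (P := fun p s => ∀ z, z ∈ p ↔ ∃ m, op m z ∈ s) (by simp (maxDischargeDepth := 50)) (by
      intro p hp
      obtain ⟨hpk, -, n, hn, j, hj, hji⟩ := mem_cnd.1 hp
      have hjv := (mem_fs.1 hj).2
      by_cases hne : ∃ z, z ∈ p
      swap
      · push Not at hne
        refine ⟨SigB.em, mem_Seq.2 ⟨SigB.em, em_mem_om, mem_fs.2 ⟨⟨fun z hz =>
          absurd hz (not_mem_em z), fun x hx => absurd hx (not_mem_em x)⟩,
          fun x hx => absurd hx (not_mem_em x)⟩⟩, fun z => ⟨fun hz => absurd hz (hne z), ?_⟩⟩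
        rintro ⟨m, hm⟩
        exact absurd hm (not_mem_em _)
      obtain ⟨z₀, hz₀⟩ := hne
      obtain ⟨s, hs, hss⟩ := choice' (a := n) (b := pd k two)
        (P := fun m z => z ∈ p ∧ ∀ z', z' ∈ p → ap j z' = m → z = z')
        (by simp (maxDischargeDepth := 50)) (by
          intro m hm
          by_cases h : ∃ z, z ∈ p ∧ ap j z = m
          · obtain ⟨z, hz, hzm⟩ := h
            exact ⟨z, hpk z hz, hz, fun z' hz' h => hji z z' hz hz' (hzm.trans h.symm)⟩
          · push Not at h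
            exact ⟨z₀, hpk z₀ hz₀, hz₀, fun z' hz' h' => absurd h' (h z' hz')⟩)
      refine ⟨s, mem_Seq.2 ⟨n, hn, hs⟩, fun z => ⟨fun hz => ⟨ap j z, ?_⟩, ?_⟩⟩
      · have hm := hjv z hz
        rw [(mem_fs.1 hs).1.op_mem_iff hm]
        exact (hss _ hm).2 z hz rfl
      · rintro ⟨m, hm⟩
        obtain ⟨x, hx, he⟩ := (mem_fs.1 hs).1.mem_iff.1 hm
        obtain ⟨rfl, rfl⟩ := op_inj.1 he
        exact (hss _ hx).1)
  refine ⟨g, hg, fun p q hp hq he => ext' fun z => ?_⟩
  rw [hgs p hp, hgs q hq, he]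

/-- The section of `S` at `a`. -/
noncomputable def sec (S k a : M) : M := sp (cnd k) fun p => op a p ∈ S

theorem mem_sec {S k a p : M} : p ∈ sec S k a ↔ p ∈ cnd k ∧ op a p ∈ S :=
  mem_sp (by simp (maxDischargeDepth := 50))

theorem sec.dt : DT (fun w : Fin 3 → M => sec (w 0) (w 1) (w 2)) := by
  unfold sec; simp (maxDischargeDepth := 50)

@[simp] theorem dt_sec {n : ℕ} {s t r : (Fin n → M) → M} (hs : DT s) (ht : DT t) (hr : DT r) :
    DT (fun v => sec (s v) (t v) (r v)) := dt3 sec.dt hs ht hr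

/-- The sets coding the nice names for subsets of `w`. -/
noncomputable def nic (w k : M) : M :=
  sp (pw (pd w (cnd k))) fun S => ∀ a, a ∈ w → Le (sec S k a) (SigB.om : M)

theorem mem_nic {w k S : M} : S ∈ nic w k ↔ Sb S (pd w (cnd k)) ∧
    ∀ a, a ∈ w → Le (sec S k a) (SigB.om : M) := by
  have h1 : S ∈ nic w k ↔ S ∈ pw (pd w (cnd k)) ∧
      ∀ a, a ∈ w → Le (sec S k a) (SigB.om : M) := mem_sp (by simp (maxDischargeDepth := 50))
  rw [h1, mem_pw]

/-- There are at most `2^ω₁` nice names for subsets of `ω₁`. -/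
theorem le_nic {w k : M} (hw : W1 w) (hk : SigB.Ord k) (hom : Sb SigB.om k) (h1 : Le (pw w) k)
    (h2 : Le k (pw w)) : Le (nic w k) k := by
  classical
  obtain ⟨i, hi, hii⟩ := le_cnd hk hom
  have hiv := (mem_fs.1 hi).2
  have homw : (SigB.om : M) ∈ w := (hw.mem _ om_ord).2 (Le.refl _)
  have homw' : Sb SigB.om w := hw.ord.sb homw
  -- cardinal arithmetic
  have hc : Le (fs (pd w (SigB.om : M)) (sc k)) k := by
    refine (le_fs ((le_sc hom).trans h2)).trans (le_fs_pw.trans ?_)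
    refine Le.trans (Le.pw ?_) h1
    refine Le.trans (Le.pd ?_ (Le.refl w)) (hess hw.ord homw')
    exact ((Le.refl w).pd (Le.of_sb homw')).trans (hess hw.ord homw')
  refine Le.trans ?_ hc
  obtain ⟨g, hg, hgs⟩ := choice' (a := nic w k) (b := fs (pd w (SigB.om : M)) (sc k))
    (P := fun S e => ∀ a, a ∈ w → ∀ p, p ∈ cnd k →
      (op a p ∈ S ↔ ∃ m, m ∈ (SigB.om : M) ∧ ap e (op a m) = ap i p))
    (by simp (maxDischargeDepth := 50)) (by
      intro S hS
      obtain ⟨hS1, hS2⟩ := mem_nic.1 hS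
      obtain ⟨J, hJ, hJs⟩ := choice' (a := w) (b := pw (pd (cnd k) (SigB.om : M)))
        (P := fun a j => j ∈ fs (sec S k a) (SigB.om : M) ∧ Inj j (sec S k a))
        (by simp (maxDischargeDepth := 50)) (by
          intro a ha
          obtain ⟨j, hj, hji⟩ := hS2 a ha
          refine ⟨j, mem_pw.2 fun z hz => ?_, hj, hji⟩
          obtain ⟨x, hx, rfl⟩ := (mem_fs.1 hj).1.mem_iff.1 hz
          exact op_mem_pd.2 ⟨(mem_sec.1 hx).1, (mem_fs.1 hj).2 x hx⟩)
      obtain ⟨e, he, hes⟩ := choice' (a := pd w (SigB.om : M)) (b := sc k)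
        (P := fun z v => ∀ a m, z = op a m →
          ((∃ p, p ∈ sec S k a ∧ ap (ap J a) p = m ∧ v = ap i p) ∨
            (v = k ∧ ∀ p, p ∈ sec S k a → ap (ap J a) p ≠ m)))
        (by simp (maxDischargeDepth := 50)) (by
          intro z hz
          obtain ⟨a, ha, m, hm, rfl⟩ := mem_pd.1 hz
          by_cases h : ∃ p, p ∈ sec S k a ∧ ap (ap J a) p = m
          · obtain ⟨p, hp, hpm⟩ := h
            refine ⟨ap i p, mem_sc.2 (Or.inl (hiv p (mem_sec.1 hp).1)), fun a' m' h' => ?_⟩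
            obtain ⟨rfl, rfl⟩ := op_inj.1 h'
            exact Or.inl ⟨p, hp, hpm, rfl⟩
          · push Not at h
            refine ⟨k, mem_sc_self k, fun a' m' h' => ?_⟩
            obtain ⟨rfl, rfl⟩ := op_inj.1 h'
            exact Or.inr ⟨rfl, h⟩)
      refine ⟨e, he, fun a ha p hp => ⟨fun h => ?_, ?_⟩⟩
      · have hps : p ∈ sec S k a := mem_sec.2 ⟨hp, h⟩
        have hm := (mem_fs.1 (hJs a ha).1).2 p hps
        refine ⟨ap (ap J a) p, hm, ?_⟩
        rcases hes _ (op_mem_pd.2 ⟨ha, hm⟩) a _ rfl with ⟨q, hq, h3, h4⟩ | ⟨-, h3⟩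
        · rw [h4, (hJs a ha).2 q p hq hps h3]
        · exact absurd rfl (h3 p hps)
      · rintro ⟨m, hm, h⟩
        rcases hes _ (op_mem_pd.2 ⟨ha, hm⟩) a _ rfl with ⟨q, hq, -, h4⟩ | ⟨h4, -⟩
        · rw [h] at h4
          rw [hii p q hp (mem_sec.1 hq).1 h4]
          exact (mem_sec.1 hq).2
        · rw [h] at h4
          have h5 := hiv p hp
          rw [h4] at h5
          exact absurd h5 (not_mem_self k))
  refine ⟨g, hg, fun S S' hS hS' he => ext' fun z => ?_⟩
  have hS1 := (mem_nic.1 hS).1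
  have hS1' := (mem_nic.1 hS').1
  constructor
  · intro hz
    obtain ⟨a, ha, p, hp, rfl⟩ := mem_pd.1 (hS1 z hz)
    rw [hgs S' hS' a ha p hp, ← he, ← hgs S hS a ha p hp]
    exact hz
  · intro hz
    obtain ⟨a, ha, p, hp, rfl⟩ := mem_pd.1 (hS1' z hz)
    rw [hgs S hS a ha p hp, he, ← hgs S' hS' a ha p hp]
    exact hz

end Pool.Agent.FTwo
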