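import Pool.Agent.FTwo.Defs
import Pool.Agent.Forc.Tr
import Pool.Agent.Frc.Tools
import Pool.Agent.Forc.CardB

/-!
If `P(ω₁)` injects into `P(ω)` then there is a `Δ`-regressive colouring of the pairs from `2^ω₁`
without monochromatic sets of five elements.
-/

universe u

set_option linter.unusedSectionVars false

namespace Pool.Agent.FTwo

open Pool.Agent.SigB Pool.Agent.Forc Pool.Agent.Frc

variable {N : Type u} [Membership N N] [IsZFC N]

/-- `d` is the least element of `w` at which `x` and `y` differ. -/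
def Dl (w d x y : N) : Prop := d ∈ w ∧ ap x d ≠ ap y d ∧ ∀ i, i ∈ d → ap x i = ap y i

theorem Dl.dfn : Dfn (fun v : Fin 4 → N => Dl (v 0) (v 1) (v 2) (v 3)) := by
  unfold Dl; simp (maxDischargeDepth := 50)

@[simp] theorem dfn_Dl {n : ℕ} {a b c d : (Fin n → N) → N} (ha : DT a) (hb : DT b) (hc : DT c)
    (hd : DT d) : Dfn (fun v => Dl (a v) (b v) (c v) (d v)) :=
  dfn4 Dl.dfn ha hb hc hd

theorem Dl.symm {w d x y : N} (h : Dl w d x y) : Dl w d y x :=
  ⟨h.1, h.2.1.symm, fun i hi => (h.2.2 i hi).symm⟩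

theorem Dl.unique {w d d' x y : N} (hw : SigB.Ord w) (h : Dl w d x y) (h' : Dl w d' x y) :
    d = d' := by
  rcases (hw.mem h.1).tri (hw.mem h'.1) with h1 | h1 | h1
  · exact absurd (h'.2.2 d h1) h.2.1
  · exact h1
  · exact absurd (h.2.2 d' h1) h'.2.1

/-- The colour relation. -/
def Kr (w g d x y v : N) : Prop :=
  Dl w d x y ∧ ((d = SigB.em ∧ v = SigB.om) ∨ (d ≠ SigB.em ∧ d ∈ (SigB.om : N) ∧ v = sU d) ∨
    (d ∉ (SigB.om : N) ∧ v ∈ (SigB.om : N) ∧
      ¬ (v ∈ ap g (sp w fun i => SigB.em ∈ ap x i) ↔ v ∈ ap g (sp w fun i => SigB.em ∈ ap y i))))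

theorem Kr.dfn : Dfn (fun v : Fin 6 → N => Kr (v 0) (v 1) (v 2) (v 3) (v 4) (v 5)) := by
  unfold Kr; simp (maxDischargeDepth := 50)

@[simp] theorem dfn_Kr {n : ℕ} {a b c d e f : (Fin n → N) → N} (ha : DT a) (hb : DT b) (hc : DT c)
    (hd : DT d) (he : DT e) (hf : DT f) :
    Dfn (fun v => Kr (a v) (b v) (c v) (d v) (e v) (f v)) :=
  dfn6 Kr.dfn ha hb hc hd he hf

theorem Kr.symm {w g d x y v : N} (h : Kr w g d x y v) : Kr w g d y x v := by
  obtain ⟨h1, h2⟩ := h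
  refine ⟨h1.symm, ?_⟩
  rcases h2 with h | h | ⟨h, h', h''⟩
  · exact Or.inl h
  · exact Or.inr (Or.inl h)
  · exact Or.inr (Or.inr ⟨h, h', fun e => h'' e.symm⟩)

/-- The set `{0, 1}`. -/
noncomputable def tw : N := pr SigB.em (pr SigB.em SigB.em)

theorem isTwo_tw : IsTwo (tw : N) :=
  ⟨SigB.em, pr SigB.em SigB.em, fun z => not_mem_em z, fun z => by simp,
    fun z => by unfold tw; simp⟩

theorem tw_eq {a b : N} (ha : a ∈ (tw : N)) (hb : b ∈ (tw : N))
    (h : SigB.em ∈ a ↔ SigB.em ∈ b) : a = b := by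
  unfold tw at ha hb
  rw [mem_pr] at ha hb
  rcases ha with rfl | rfl <;> rcases hb with rfl | rfl
  · rfl
  · exact absurd (h.2 (by simp)) (not_mem_em _)
  · exact absurd (h.1 (by simp)) (not_mem_em _)
  · rfl

theorem pr_eq {x y x' y' : N} (h : pr x y = pr x' y') :
    (x = x' ∧ y = y') ∨ (x = y' ∧ y = x') := by
  have h1 : x ∈ pr x' y' := h ▸ (by simp)
  have h2 : y ∈ pr x' y' := h ▸ (by simp)
  have h3 : x' ∈ pr x y := h ▸ (by simp)
  have h4 : y' ∈ pr x y := h ▸ (by simp)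
  rw [mem_pr] at h1 h2 h3 h4
  rcases h1 with rfl | rfl
  · rcases h2 with rfl | rfl
    · left
      refine ⟨rfl, ?_⟩
      rcases h4 with h4 | h4 <;> exact h4.symm
    · exact Or.inl ⟨rfl, rfl⟩
  · rcases h2 with rfl | rfl
    · exact Or.inr ⟨rfl, rfl⟩
    · right
      refine ⟨rfl, ?_⟩
      rcases h3 with h3 | h3 <;> exact h3.symm

theorem noFive {w : N} (hw : IsOmegaOne w) (h : Le (pw w) (pw (SigB.om : N))) : NoFive N := by
  obtain ⟨hwo, hwn, hwc⟩ := isOmegaOne_iff.1 hw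
  obtain ⟨g, hg, hgi⟩ := h
  obtain ⟨hg1, hg2⟩ := mem_fs.1 hg
  have homw : (SigB.om : N) ∈ w := by
    rcases om_ord.tri hwo with h | h | h
    · exact h
    · exact absurd (h ▸ Le.refl _) hwn
    · exact absurd (Le.of_sb (om_ord.sb h)) hwn
  have hsd : ∀ x : N, Dfn (fun v : Fin 1 → N => SigB.em ∈ ap x (v 0)) := fun x => by
    simp (maxDischargeDepth := 50)
  have hsw : ∀ x : N, (sp w fun i => SigB.em ∈ ap x i) ∈ pw w := fun x =>
    mem_pw.2 fun z hz => ((mem_sp (hsd x)).1 hz).1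
  -- the map to the subsets of `ω` is injective
  have hinj : ∀ x y : N, x ∈ fs w tw → y ∈ fs w tw →
      ap g (sp w fun i => SigB.em ∈ ap x i) = ap g (sp w fun i => SigB.em ∈ ap y i) → x = y := by
    intro x y hx hy h
    have h1 := hgi _ _ (hsw x) (hsw y) h
    obtain ⟨hx1, hx2⟩ := mem_fs.1 hx
    obtain ⟨hy1, hy2⟩ := mem_fs.1 hy
    refine hx1.ext hy1 fun i hi => tw_eq (hx2 i hi) (hy2 i hi) ?_
    constructor
    · intro h2
      have h3 : i ∈ sp w fun i => SigB.em ∈ ap x i := (mem_sp (hsd x)).2 ⟨hi, h2⟩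
      rw [h1] at h3
      exact ((mem_sp (hsd y)).1 h3).2
    · intro h2
      have h3 : i ∈ sp w fun i => SigB.em ∈ ap y i := (mem_sp (hsd y)).2 ⟨hi, h2⟩
      rw [← h1] at h3
      exact ((mem_sp (hsd x)).1 h3).2
  -- the first difference
  have hdl : ∀ x y : N, x ∈ fs w tw → y ∈ fs w tw → x ≠ y → ∃ d, Dl w d x y := by
    intro x y hx hy hxy
    obtain ⟨hx1, hx2⟩ := mem_fs.1 hx
    obtain ⟨hy1, hy2⟩ := mem_fs.1 hy
    have h1 : ∃ i, i ∈ w ∧ ap x i ≠ ap y i := by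
      by_contra hn
      push Not at hn
      exact hxy (hx1.ext hy1 hn)
    obtain ⟨i, hi, hxi⟩ := h1
    obtain ⟨d, hd, hd1, hd2⟩ := hwo.least (P := fun i => ap x i ≠ ap y i)
      (by simp (maxDischargeDepth := 50)) ⟨i, hi, hxi⟩
    exact ⟨d, hd, hd1, fun i hi => not_not.1 (hd2 i hi)⟩
  have hK : ∀ x y : N, x ∈ fs w tw → y ∈ fs w tw → x ≠ y → ∃ v, v ∈ w ∧ ∃ d, Kr w g d x y v := by
    intro x y hx hy hxy
    obtain ⟨d, hd⟩ := hdl x y hx hy hxy
    by_cases h0 : d = SigB.em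
    · exact ⟨SigB.om, homw, d, hd, Or.inl ⟨h0, rfl⟩⟩
    by_cases h1 : d ∈ (SigB.om : N)
    · refine ⟨sU d, ?_, d, hd, Or.inr (Or.inl ⟨h0, h1, rfl⟩)⟩
      rcases om_cases h1 with h | ⟨m, hm, rfl⟩
      · exact absurd h h0
      · rw [sU_sc_of_ord (ord_of_mem_om hm)]
        exact hwo.trans hm homw
    · have h2 : ∃ v, v ∈ (SigB.om : N) ∧ ¬ (v ∈ ap g (sp w fun i => SigB.em ∈ ap x i) ↔
          v ∈ ap g (sp w fun i => SigB.em ∈ ap y i)) := by
        by_contra hn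
        push Not at hn
        refine hxy (hinj x y hx hy (ext' fun z => ?_))
        have hz : ∀ x : N, z ∈ ap g (sp w fun i => SigB.em ∈ ap x i) → z ∈ (SigB.om : N) :=
          fun x hz => mem_pw.1 (hg2 _ (hsw x)) z hz
        constructor
        · intro h; exact (hn z (hz x h)).1 h
        · intro h; exact (hn z (hz y h)).2 h
      obtain ⟨v, hv, hv'⟩ := h2
      exact ⟨v, hwo.trans hv homw, d, hd, Or.inr (Or.inr ⟨h1, hv, hv'⟩)⟩
  -- the set of pairs
  have hDd : Dfn (fun v : Fin 1 → N => ∃ x y, x ∈ fs w tw ∧ y ∈ fs w tw ∧ x ≠ y ∧ v 0 = pr x y) := by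
    simp (maxDischargeDepth := 50)
  let D : N := sp (pw (fs w tw)) fun z => ∃ x y, x ∈ fs w tw ∧ y ∈ fs w tw ∧ x ≠ y ∧ z = pr x y
  have hD : ∀ z, z ∈ D ↔ ∃ x y, x ∈ fs w tw ∧ y ∈ fs w tw ∧ x ≠ y ∧ z = pr x y := by
    intro z
    show z ∈ sp _ _ ↔ _
    rw [mem_sp hDd]
    constructor
    · exact fun h => h.2
    · rintro ⟨x, y, hx, hy, hxy, rfl⟩
      refine ⟨mem_pw.2 fun u hu => ?_, x, y, hx, hy, hxy, rfl⟩
      rcases mem_pr.1 hu with rfl | rfl
      · exact hx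
      · exact hy
  obtain ⟨c, hc, hcv⟩ := choice' (a := D) (b := w)
    (P := fun z v => ∀ x y, x ∈ fs w tw → y ∈ fs w tw → x ≠ y → z = pr x y → ∃ d, Kr w g d x y v)
    (by simp (maxDischargeDepth := 50)) (by
      intro z hz
      obtain ⟨x, y, hx, hy, hxy, rfl⟩ := (hD z).1 hz
      obtain ⟨v, hv, d, hK'⟩ := hK x y hx hy hxy
      refine ⟨v, hv, fun x' y' hx' hy' hxy' he => ⟨d, ?_⟩⟩
      rcases pr_eq he with ⟨rfl, rfl⟩ | ⟨rfl, rfl⟩
      · exact hK'
      · exact hK'.symm)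
  obtain ⟨hc1, hc2⟩ := mem_fs.1 hc
  have hcol : ∀ x y i : N, x ∈ fs w tw → y ∈ fs w tw → x ≠ y → Colour c x y i →
      ∃ d, Kr w g d x y i := by
    rintro x y i hx hy hxy ⟨z, hz, hzi⟩
    rw [isPair_iff] at hz
    subst hz
    have h1 : pr x y ∈ D := (hD _).2 ⟨x, y, hx, hy, hxy, rfl⟩
    have h2 := (hc1.op_mem_iff h1).1 (val_iff.1 hzi)
    rw [← h2]
    exact hcv _ h1 x y hx hy hxy rfl
  refine ⟨w, fs w tw, D, c, hw, ⟨tw, isTwo_tw, fun f => isMap_iff.symm⟩, fun z => ?_,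
    isMap_iff.2 hc, ?_, ?_⟩
  · rw [hD]
    simp only [isPair_iff]
  · -- regressive
    intro x y d i hx hy hd hj hcl
    have hx1 := isMap_iff.2 hx
    have hy1 := isMap_iff.2 hy
    obtain ⟨hdw, ⟨v, hv, hv'⟩, hag⟩ := hd
    rw [val_map hx1] at hv
    rw [val_map hy1] at hv'
    have hne : ap x d ≠ ap y d := fun e => hv' ⟨hdw, e ▸ hv.2⟩
    have hDl : Dl w d x y := by
      refine ⟨hdw, hne, fun j hj => ?_⟩
      have hjw := hwo.trans hj hdw
      exact (((val_map hy1).1 ((hag j _ hj).1 ((val_map hx1).2 ⟨hjw, rfl⟩))).2).symm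
    have hxy : x ≠ y := fun e => hne (by rw [e])
    obtain ⟨d', hd', hk⟩ := hcol x y i hx hy hxy hcl
    obtain rfl := hDl.unique hwo hd'
    rcases hk with ⟨h, -⟩ | ⟨h, h', rfl⟩ | ⟨h, h', -⟩
    · obtain ⟨j, hj⟩ := hj
      rw [h] at hj
      exact absurd hj (not_mem_em _)
    · rcases om_cases h' with h1 | ⟨m, hm, rfl⟩
      · exact absurd h1 h
      · rw [sU_sc_of_ord (ord_of_mem_om hm)]
        exact mem_sc_self m
    · exact (Ord.not_mem_iff (hwo.mem hdw) om_ord).1 h i h'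
  · -- no five
    intro i x hx hinj'
    by_contra hno
    push Not at hno
    have hk : ∀ k l, k ≠ l → ∃ d, Kr w g d (x k) (x l) i := fun k l hkl =>
      hcol _ _ i (hx k) (hx l) (fun e => hkl (hinj' e)) (hno k l hkl)
    have hmem : ∀ k j, j ∈ w → ap (x k) j ∈ (tw : N) := fun k j hj => (mem_fs.1 (hx k)).2 j hj
    classical
    by_cases hi : i ∈ (SigB.om : N)
    · obtain ⟨k, l, hkl, he⟩ := Fintype.exists_ne_map_eq_of_card_lt
        (fun k : Fin 5 => ((decide (SigB.em ∈ ap (x k) (sc i)),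
          decide (i ∈ ap g (sp w fun j => SigB.em ∈ ap (x k) j))) : Bool × Bool)) (by simp)
      simp only [Prod.mk.injEq, decide_eq_decide] at he
      obtain ⟨d, hd, hkr⟩ := hk k l hkl
      rcases hkr with ⟨-, h⟩ | ⟨h, h', h''⟩ | ⟨-, -, h⟩
      · rw [h] at hi
        exact not_mem_self _ hi
      · rcases om_cases h' with h1 | ⟨m, hm, rfl⟩
        · exact h h1
        · rw [sU_sc_of_ord (ord_of_mem_om hm)] at h''
          subst h''
          exact hd.2.1 (tw_eq (hmem k _ hd.1) (hmem l _ hd.1) he.1)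
      · exact h he.2
    · obtain ⟨k, l, hkl, he⟩ := Fintype.exists_ne_map_eq_of_card_lt
        (fun k : Fin 5 => decide (SigB.em ∈ ap (x k) SigB.em)) (by simp)
      simp only [decide_eq_decide] at he
      obtain ⟨d, hd, hkr⟩ := hk k l hkl
      rcases hkr with ⟨h, -⟩ | ⟨h, h', h''⟩ | ⟨-, h, -⟩
      · subst h
        exact hd.2.1 (tw_eq (hmem k _ hd.1) (hmem l _ hd.1) he)
      · rcases om_cases h' with h1 | ⟨m, hm, rfl⟩
        · exact h h1
        · rw [sU_sc_of_ord (ord_of_mem_om hm)] at h''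
          exact hi (h'' ▸ hm)
      · exact hi h

end Pool.Agent.FTwo
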