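import Pool.Agent.Frc.Cover
import Pool.Agent.Frc.Chang
import Pool.Agent.Forc.CardB
import Pool.Agent.Forc.CohenDef
import Pool.Agent.Forc.LS1

/-!
# Finite partial functions

Conditions are the finite partial functions from `k` to `2`, ordered by reverse inclusion.
Antichains are countable.
-/

universe u

set_option linter.unusedSectionVars false

namespace Pool.Agent.FTwo

open Pool.Agent.SigB Pool.Agent.Forc Pool.Agent.Frc

variable {M : Type u} [Membership M M] [IsZFC M]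

/-- `p` is a set of pairs with unique second members. -/
def Pf (p : M) : Prop := ∀ x y z, op x y ∈ p → op x z ∈ p → y = z

theorem Pf.dfn : Dfn (fun w : Fin 1 → M => Pf (w 0)) := by
  unfold Pf; simp (maxDischargeDepth := 50)

@[simp] theorem dfn_Pf {n : ℕ} {s : (Fin n → M) → M} (hs : DT s) : Dfn fun v => Pf (s v) :=
  dfn1 Pf.dfn hs

/-- `p` and `q` have different values somewhere. -/
def Inc (p q : M) : Prop := ∃ x y z, op x y ∈ p ∧ op x z ∈ q ∧ y ≠ z

theorem Inc.dfn : Dfn (fun w : Fin 2 → M => Inc (w 0) (w 1)) := by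
  unfold Inc; simp (maxDischargeDepth := 50)

@[simp] theorem dfn_Inc {n : ℕ} {s t : (Fin n → M) → M} (hs : DT s) (ht : DT t) :
    Dfn fun v => Inc (s v) (t v) := dfn2 Inc.dfn hs ht

theorem Inc.symm {p q : M} (h : Inc p q) : Inc q p := by
  obtain ⟨x, y, z, h1, h2, h3⟩ := h
  exact ⟨x, z, y, h2, h1, fun h => h3 h.symm⟩

/-- `A` is an antichain. -/
def Anti (A : M) : Prop := ∀ p q, p ∈ A → q ∈ A → p ≠ q → Inc p q

theorem Anti.dfn : Dfn (fun w : Fin 1 → M => Anti (w 0)) := by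
  unfold Anti; simp (maxDischargeDepth := 50)

@[simp] theorem dfn_Anti {n : ℕ} {s : (Fin n → M) → M} (hs : DT s) : Dfn fun v => Anti (s v) :=
  dfn1 Anti.dfn hs

/-- The conditions. -/
noncomputable def cnd (k : M) : M :=
  sp (pw (pd k two)) fun p => Pf p ∧ ∃ n, n ∈ (SigB.om : M) ∧ Le p n

/-- Reverse inclusion. -/
noncomputable def cle (k : M) : M :=
  sp (pd (cnd k) (cnd k)) fun z => ∃ p q, z = op p q ∧ Sb q p

theorem cnd.dt : DT (fun w : Fin 1 → M => cnd (w 0)) := by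
  unfold cnd; simp (maxDischargeDepth := 50)

@[simp] theorem dt_cnd {n : ℕ} {s : (Fin n → M) → M} (hs : DT s) : DT (fun v => cnd (s v)) :=
  dt1 cnd.dt hs

theorem cle.dt : DT (fun w : Fin 1 → M => cle (w 0)) := by
  unfold cle; simp (maxDischargeDepth := 50)

@[simp] theorem dt_cle {n : ℕ} {s : (Fin n → M) → M} (hs : DT s) : DT (fun v => cle (s v)) :=
  dt1 cle.dt hs

theorem mem_cnd {k p : M} :
    p ∈ cnd k ↔ Sb p (pd k two) ∧ Pf p ∧ ∃ n, n ∈ (SigB.om : M) ∧ Le p n := by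
  have h1 : p ∈ cnd k ↔ p ∈ pw (pd k two) ∧ Pf p ∧ ∃ n, n ∈ (SigB.om : M) ∧ Le p n :=
    mem_sp (by simp (maxDischargeDepth := 50))
  rw [h1, mem_pw]

theorem op_mem_cle {k p q : M} : op p q ∈ cle k ↔ (p ∈ cnd k ∧ q ∈ cnd k) ∧ Sb q p := by
  have h1 : op p q ∈ cle k ↔ op p q ∈ pd (cnd k) (cnd k) ∧
      ∃ p' q', op p q = op p' q' ∧ Sb q' p' := mem_sp (by simp (maxDischargeDepth := 50))
  rw [h1, op_mem_pd]
  refine and_congr_right fun _ => ⟨?_, fun h => ⟨p, q, rfl, h⟩⟩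
  rintro ⟨p', q', he, h⟩
  obtain ⟨rfl, rfl⟩ := op_inj.1 he
  exact h

theorem em_mem_cnd (k : M) : (SigB.em : M) ∈ cnd k :=
  mem_cnd.2 ⟨fun z hz => absurd hz (not_mem_em z), fun x y _ h => absurd h (not_mem_em _),
    SigB.em, em_mem_om, Le.refl _⟩

theorem cPO (k : M) : PO (cnd k) (cle k) (SigB.em : M) where
  sub _ _ h := (op_mem_cle.1 h).1
  refl p hp := op_mem_cle.2 ⟨⟨hp, hp⟩, Sb.refl p⟩
  trans _ _ _ h h' := op_mem_cle.2 ⟨⟨(op_mem_cle.1 h).1.1, (op_mem_cle.1 h').1.2⟩,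
    (op_mem_cle.1 h').2.trans (op_mem_cle.1 h).2⟩
  one_mem := em_mem_cnd k
  top _ hp := op_mem_cle.2 ⟨⟨hp, em_mem_cnd k⟩, fun z hz => absurd hz (not_mem_em z)⟩

/-- Compatible conditions have a common extension. -/
theorem un_mem_cnd {k p q : M} (hp : p ∈ cnd k) (hq : q ∈ cnd k) (h : ¬ Inc p q) :
    un p q ∈ cnd k := by
  obtain ⟨h1, h2, n, hn, h3⟩ := mem_cnd.1 hp
  obtain ⟨h1', h2', n', hn', h3'⟩ := mem_cnd.1 hq
  obtain ⟨j, hj, hle⟩ := fin_un hn hn' h3 h3'
  have h4 : ∀ x y z, op x y ∈ p → op x z ∈ q → y = z := by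
    intro x y z hx hz
    by_contra hne
    exact h ⟨x, y, z, hx, hz, hne⟩
  refine mem_cnd.2 ⟨fun z hz => ?_, fun x y z hy hz => ?_, j, hj, hle⟩
  · rcases mem_un.1 hz with h | h
    · exact h1 z h
    · exact h1' z h
  · rcases mem_un.1 hy with h5 | h5 <;> rcases mem_un.1 hz with h6 | h6
    · exact h2 x y z h5 h6
    · exact h4 x y z h5 h6
    · exact (h4 x z y h6 h5).symm
    · exact h2' x y z h5 h6

theorem sb_un_left (p q : M) : Sb p (un p q) := fun _ hz => mem_un.2 (Or.inl hz)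

theorem sb_un_right (p q : M) : Sb q (un p q) := fun _ hz => mem_un.2 (Or.inr hz)

/-- Incompatible conditions. -/
theorem not_inc_of_sb {k p q r : M} (hr : r ∈ cnd k) (h : Sb p r) (h' : Sb q r) : ¬ Inc p q := by
  rintro ⟨x, y, z, h1, h2, h3⟩
  exact h3 ((mem_cnd.1 hr).2.1 x y z (h _ h1) (h' _ h2))

theorem single_mem_cnd {k x e : M} (hx : x ∈ k) (he : e ∈ (two : M)) :
    pr (op x e) (op x e) ∈ cnd k := by
  refine mem_cnd.2 ⟨fun z hz => ?_, fun a b c hb hc => ?_, sc SigB.em, sc_mem_om em_mem_om, ?_⟩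
  · rw [mem_pr, or_self] at hz
    rw [hz]
    exact op_mem_pd.2 ⟨hx, he⟩
  · rw [mem_pr, or_self] at hb hc
    rw [(op_inj.1 hb).2, (op_inj.1 hc).2]
  · refine ((le_of_empty (A := (SigB.em : M)) (B := SigB.em) not_mem_em).insert
      (op x e)).mono_left fun z hz => mem_un.2 (Or.inr hz)

/-- Extension of a condition at a new point. -/
theorem exists_add {k p x e : M} (hp : p ∈ cnd k) (hx : x ∈ k) (he : e ∈ (two : M))
    (h : ∀ y, op x y ∉ p) : un p (pr (op x e) (op x e)) ∈ cnd k := by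
  refine un_mem_cnd hp (single_mem_cnd hx he) ?_
  rintro ⟨a, b, c, h1, h2, -⟩
  rw [mem_pr, or_self] at h2
  rw [(op_inj.1 h2).1] at h1
  exact h b h1

/-! ### Antichains are countable -/

/-- Removing an element. -/
theorem le_remove {p n t : M} (h : Le p (sc n)) (ht : t ∈ p) : Le (df p (pr t t)) n := by
  classical
  obtain ⟨f, hf, hi⟩ := h
  have hv := (mem_fs.1 hf).2
  refine Le.mk (F := fun z => if ap f z = n then ap f t else ap f z) ?_ ?_ ?_
  · exact DT.ite (P := fun w : Fin 1 → M => ap f (w 0) = n) (by simp (maxDischargeDepth := 50))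
      (by simp (maxDischargeDepth := 50)) (by simp (maxDischargeDepth := 50))
  · intro z hz
    obtain ⟨h1, h2⟩ := mem_df.1 hz
    rw [mem_pr, or_self] at h2
    by_cases h3 : ap f z = n
    · rw [if_pos h3]
      rcases mem_sc.1 (hv t ht) with h4 | h4
      · exact h4
      · exact absurd (hi z t h1 ht (h3.trans h4.symm)) h2
    · rw [if_neg h3]
      rcases mem_sc.1 (hv z h1) with h4 | h4
      · exact h4
      · exact absurd h4 h3
  · intro x y hx hy he
    obtain ⟨h1, h2⟩ := mem_df.1 hx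
    obtain ⟨h1', h2'⟩ := mem_df.1 hy
    rw [mem_pr, or_self] at h2 h2'
    by_cases h3 : ap f x = n <;> by_cases h4 : ap f y = n
    · exact hi x y h1 h1' (h3.trans h4.symm)
    · simp only [if_pos h3, if_neg h4] at he
      exact absurd (hi t y ht h1' he).symm h2'
    · simp only [if_neg h3, if_pos h4] at he
      exact absurd (hi x t h1 ht he) h2
    · simp only [if_neg h3, if_neg h4] at he
      exact hi x y h1 h1' he

/-- Antichains of conditions with at most `n` elements are countable. -/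
theorem anti_le {k n : M} (hn : n ∈ (SigB.om : M)) : ∀ A : M, Sb A (pw (pd k two)) →
    (∀ p, p ∈ A → Pf p ∧ Le p n) → Anti A → Le A (SigB.om : M) := by
  refine om_ind (P := fun n => ∀ A : M, Sb A (pw (pd k two)) →
    (∀ p, p ∈ A → Pf p ∧ Le p n) → Anti A → Le A (SigB.om : M))
    (by simp (maxDischargeDepth := 50)) ?_ ?_ n hn
  · intro A _ hA _
    refine (le_om_pr SigB.em SigB.em).mono_left fun p hp => ?_
    obtain ⟨f, hf, -⟩ := (hA p hp).2
    rw [mem_pr, or_self]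
    exact ext' fun z => ⟨fun hz => absurd ((mem_fs.1 hf).2 z hz) (not_mem_em _),
      fun hz => absurd hz (not_mem_em z)⟩
  · intro n hn ih A hAk hA hanti
    by_cases hne : ∃ p, p ∈ A
    swap
    · push Not at hne
      exact le_of_empty hne
    obtain ⟨p₀, hp₀⟩ := hne
    let F : M → M := fun z => sp A fun p => ∃ x y y', z = op x y ∧ op x y' ∈ p ∧ y ≠ y'
    have hF : DT (fun w : Fin 1 → M => F (w 0)) := by simp (maxDischargeDepth := 50) [F]
    have hFm : ∀ z p, p ∈ F z ↔ p ∈ A ∧ ∃ x y y', z = op x y ∧ op x y' ∈ p ∧ y ≠ y' :=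
      fun z p => mem_sp (by simp (maxDischargeDepth := 50))
    have hp₀om : Le p₀ (SigB.om : M) := (hA p₀ hp₀).2.mono_right (om_ord.sb (sc_mem_om hn))
    have hkey : ∀ z, z ∈ p₀ → Le (F z) (SigB.om : M) := by
      intro z hz
      obtain ⟨x, hx, y, hy, rfl⟩ := mem_pd.1 (mem_pw.1 (hAk p₀ hp₀) z hz)
      -- the other value
      obtain ⟨c, hc⟩ : ∃ c : M, ∀ y', y' ∈ (two : M) → y ≠ y' → y' = c := by
        by_cases h : y = SigB.em
        · refine ⟨Forc.one, fun y' hy' hne => ?_⟩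
          rcases mem_sc.1 hy' with h1 | h1
          · rcases mem_sc.1 h1 with h2 | h2
            · exact absurd h2 (not_mem_em _)
            · exact absurd (h.trans h2.symm) hne
          · exact h1
        · refine ⟨SigB.em, fun y' hy' hne => ?_⟩
          have hy1 : y = Forc.one := by
            rcases mem_sc.1 hy with h1 | h1
            · rcases mem_sc.1 h1 with h2 | h2
              · exact absurd h2 (not_mem_em _)
              · exact absurd h2 h
            · exact h1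
          rcases mem_sc.1 hy' with h1 | h1
          · rcases mem_sc.1 h1 with h2 | h2
            · exact absurd h2 (not_mem_em _)
            · exact h2
          · exact absurd (hy1.trans h1.symm) hne
      have hFc : ∀ p, p ∈ F (op x y) → p ∈ A ∧ op x c ∈ p := by
        intro p hp
        obtain ⟨h1, x', y1, y', he, h2, h3⟩ := (hFm _ _).1 hp
        obtain ⟨rfl, rfl⟩ := op_inj.1 he
        have h4 := (op_mem_pd.1 (mem_pw.1 (hAk p h1) _ h2)).2
        rw [← hc y' h4 h3]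
        exact ⟨h1, h2⟩
      let H : M → M := fun p => df p (pr (op x c) (op x c))
      have hH : DT (fun w : Fin 1 → M => H (w 0)) := by simp (maxDischargeDepth := 50) [H]
      have hHm : ∀ p z, z ∈ H p ↔ z ∈ p ∧ z ≠ op x c := by
        intro p z
        show z ∈ df p (pr (op x c) (op x c)) ↔ _
        rw [mem_df, mem_pr, or_self]
      have hB : Le (im (F (op x y)) H) (SigB.om : M) := by
        refine ih _ ?_ ?_ ?_
        · intro q hq
          obtain ⟨p, hp, rfl⟩ := (mem_im hH).1 hq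
          exact mem_pw.2 fun z hz => mem_pw.1 (hAk p (hFc p hp).1) z ((hHm _ _).1 hz).1
        · intro q hq
          obtain ⟨p, hp, rfl⟩ := (mem_im hH).1 hq
          obtain ⟨h1, h2⟩ := hFc p hp
          refine ⟨fun a b b' hb hb' => (hA p h1).1 a b b' ((hHm _ _).1 hb).1 ((hHm _ _).1 hb').1,
            le_remove (hA p h1).2 h2⟩
        · intro q q' hq hq' hne
          obtain ⟨p, hp, rfl⟩ := (mem_im hH).1 hq
          obtain ⟨p', hp', rfl⟩ := (mem_im hH).1 hq'
          obtain ⟨h1, h2⟩ := hFc p hp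
          obtain ⟨h1', h2'⟩ := hFc p' hp'
          obtain ⟨a, b, b', h3, h4, h5⟩ := hanti p p' h1 h1' (fun h => hne (by rw [h]))
          have hax : a ≠ x := by
            rintro rfl
            exact h5 (((hA p h1).1 a b c h3 h2).trans ((hA p' h1').1 a b' c h4 h2').symm)
          refine ⟨a, b, b', (hHm _ _).2 ⟨h3, fun h => hax (op_inj.1 h).1⟩,
            (hHm _ _).2 ⟨h4, fun h => hax (op_inj.1 h).1⟩, h5⟩
      refine Le.trans (Le.mk hH (fun p hp => (mem_im hH).2 ⟨p, hp, rfl⟩) ?_) hB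
      have hsub : ∀ p q, p ∈ F (op x y) → q ∈ F (op x y) → H p = H q → Sb p q := by
        intro p q hp hq he z hz
        by_cases h : z = op x c
        · rw [h]; exact (hFc q hq).2
        · have h1 : z ∈ H p := (hHm _ _).2 ⟨hz, h⟩
          rw [he] at h1
          exact ((hHm _ _).1 h1).1
      exact fun p q hp hq he => (hsub p q hp hq he).antisymm (hsub q p hq hp he.symm)
    have hU : Le (sU (im p₀ F)) (SigB.om : M) := by
      refine Le.union om_ord (Sb.refl _) (le_om_im hp₀om hF) fun y hy => ?_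
      obtain ⟨z, hz, rfl⟩ := (mem_im hF).1 hy
      exact hkey z hz
    refine (le_om_un (le_om_pr p₀ p₀) hU).mono_left fun p hp => ?_
    by_cases h : p = p₀
    · exact mem_un.2 (Or.inl (by simp [h]))
    · obtain ⟨x, y, y', h1, h2, h3⟩ := hanti p₀ p hp₀ hp (fun h' => h h'.symm)
      exact mem_un.2 (Or.inr (mem_sU.2 ⟨F (op x y), (mem_im hF).2 ⟨_, h1, rfl⟩,
        (hFm _ _).2 ⟨hp, x, y, y', rfl, h2, h3⟩⟩))

/-- Antichains are countable. -/
theorem ccc {k A : M} (hA : Sb A (cnd k)) (h : Anti A) : Le A (SigB.om : M) := by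
  let F : M → M := fun n => sp A fun p => Le p n
  have hF : DT (fun w : Fin 1 → M => F (w 0)) := by simp (maxDischargeDepth := 50) [F]
  have hFm : ∀ n p, p ∈ F n ↔ p ∈ A ∧ Le p n := fun n p =>
    mem_sp (by simp (maxDischargeDepth := 50))
  have hU : Le (sU (im (SigB.om : M) F)) (SigB.om : M) := by
    refine Le.union om_ord (Sb.refl _) (le_om_im (Le.refl _) hF) fun y hy => ?_
    obtain ⟨n, hn, rfl⟩ := (mem_im hF).1 hy
    refine anti_le hn (F n) (fun p hp => mem_pw.2 (mem_cnd.1 (hA p ((hFm _ _).1 hp).1)).1)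
      (fun p hp => ⟨(mem_cnd.1 (hA p ((hFm _ _).1 hp).1)).2.1, ((hFm _ _).1 hp).2⟩)
      fun p q hp hq hne => h p q ((hFm _ _).1 hp).1 ((hFm _ _).1 hq).1 hne
  refine hU.mono_left fun p hp => ?_
  obtain ⟨n, hn, hle⟩ := (mem_cnd.1 (hA p hp)).2.2
  exact mem_sU.2 ⟨F n, (mem_im hF).2 ⟨n, hn, rfl⟩, (hFm _ _).2 ⟨hp, hle⟩⟩

/-- Every set of conditions has a countable predense subset. -/
theorem exists_pred {k D : M} (hD : Sb D (cnd k)) : ∃ A, Sb A D ∧ Le A (SigB.om : M) ∧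
    ∀ q, q ∈ D → ∃ p, p ∈ A ∧ ¬ Inc p q := by
  classical
  obtain ⟨κ, f, hκ, hf⟩ := exists_bij_ord D
  obtain ⟨hf1, hf2, hf3⟩ := hf
  have hfv := (mem_fs.1 hf1).2
  obtain ⟨h, hh, hhr⟩ := ord_recursion hκ (G := fun ξ h =>
    if (∀ η, η ∈ ξ → ap h η = Forc.one → Inc (ap f η) (ap f ξ)) then Forc.one else SigB.em) (by
      refine DT.ite (P := fun w : Fin 2 → M => ∀ η, η ∈ w 0 → ap (w 1) η = Forc.one →
        Inc (ap f η) (ap f (w 0))) (by simp (maxDischargeDepth := 50)) (DT.const _) (DT.const _))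
  have h10 : (SigB.em : M) ≠ Forc.one := fun h' => by
    have h1 : (SigB.em : M) ∈ (Forc.one : M) := mem_sc_self _
    rw [← h'] at h1
    exact not_mem_em _ h1
  have hcase : ∀ ξ, ξ ∈ κ → ((ap h ξ = Forc.one ∧ ∀ η, η ∈ ξ → ap h η = Forc.one →
      Inc (ap f η) (ap f ξ)) ∨ (ap h ξ ≠ Forc.one ∧ ∃ η, η ∈ ξ ∧ ap h η = Forc.one ∧
      ¬ Inc (ap f η) (ap f ξ))) := by
    intro ξ hξ
    have hr : ∀ η, η ∈ ξ → ap (rs h ξ) η = ap h η := fun η hη => ap_rs hh (hκ.sb hξ) hη
    have h1 := hhr ξ hξ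
    by_cases h2 : ∀ η, η ∈ ξ → ap (rs h ξ) η = Forc.one → Inc (ap f η) (ap f ξ)
    · rw [if_pos h2] at h1
      exact Or.inl ⟨h1, fun η hη he => h2 η hη (by rw [hr η hη, he])⟩
    · rw [if_neg h2] at h1
      push Not at h2
      obtain ⟨η, hη, he, hn⟩ := h2
      exact Or.inr ⟨by rw [h1]; exact h10, η, hη, by rw [← hr η hη, he], hn⟩
  let A : M := sp D fun p => ∃ ξ, ξ ∈ κ ∧ ap f ξ = p ∧ ap h ξ = Forc.one
  have hA : ∀ p, p ∈ A ↔ p ∈ D ∧ ∃ ξ, ξ ∈ κ ∧ ap f ξ = p ∧ ap h ξ = Forc.one := fun p =>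
    mem_sp (by simp (maxDischargeDepth := 50))
  refine ⟨A, fun p hp => ((hA p).1 hp).1, ccc (k := k) (fun p hp => hD p ((hA p).1 hp).1) ?_, ?_⟩
  · intro p q hp hq hne
    obtain ⟨-, ξ, hξ, rfl, h1⟩ := (hA p).1 hp
    obtain ⟨-, η, hη, rfl, h2⟩ := (hA q).1 hq
    rcases (hκ.mem hξ).tri (hκ.mem hη) with h3 | h3 | h3
    · rcases hcase η hη with ⟨-, h4⟩ | ⟨h4, -⟩
      · exact h4 ξ h3 h1
      · exact absurd h2 h4
    · exact absurd (by rw [h3]) hne
    · rcases hcase ξ hξ with ⟨-, h4⟩ | ⟨h4, -⟩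
      · exact (h4 η h3 h2).symm
      · exact absurd h1 h4
  · intro q hq
    obtain ⟨ξ, hξ, rfl⟩ := hf3 q hq
    rcases hcase ξ hξ with ⟨h1, -⟩ | ⟨-, η, hη, h1, h2⟩
    · refine ⟨ap f ξ, (hA _).2 ⟨hq, ξ, hξ, rfl, h1⟩, not_inc_of_sb (hD _ hq) (Sb.refl _)
        (Sb.refl _)⟩
    · have hηκ := hκ.trans hη hξ
      exact ⟨ap f η, (hA _).2 ⟨hfv η hηκ, η, hηκ, rfl, h1⟩, h2⟩

end Pool.Agent.FTwo
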