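import Pool.Agent.Forc.Defs

/-!
`Δ`-regressive colourings of the pairs from `2^ω₁`, evaluated in a structure `(N, ∈)`.
-/

universe u

namespace Pool.Agent.FTwo

open Pool.Agent.SigB Pool.Agent.Forc

variable {N : Type u} [Membership N N]

/-- `D = [p]²`: the elements of `D` are the sets `{x, y}` for distinct elements `x`, `y` of `p`. -/
def IsPairs (D p : N) : Prop := ∀ z, z ∈ D ↔ ∃ x y, x ∈ p ∧ y ∈ p ∧ x ≠ y ∧ IsPair z x y

/-- `c(x, y) = i` for the function `c` on two-element sets: the pair `({x, y}, i)` belongs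
to `c`. -/
def Colour (c x y i : N) : Prop := ∃ z, IsPair z x y ∧ Val c z i

/-- `d = Δ(x, y)` for functions `x`, `y` on the ordinal `w`: the least element of `w` at which
`x` and `y` have different values. -/
def IsDelta (d x y w : N) : Prop :=
  d ∈ w ∧ (∃ v, Val x d v ∧ ¬ Val y d v) ∧ Agree x y d

/-- The colouring `c` of the pairs from `p`, a set of functions on `w`, is `Δ`-regressive:
`c(x, y) < Δ(x, y)` whenever `Δ(x, y) > 0`. -/
def IsRegressive (c p w : N) : Prop :=
  ∀ x y d i, x ∈ p → y ∈ p → IsDelta d x y w → (∃ j, j ∈ d) → Colour c x y i → i ∈ d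

variable (N) in
/-- In `(N, ∈)` there is a `Δ`-regressive colouring `c : [2^ω₁]² → ω₁` (here `w = ω₁`, `p` is the
set of functions from `w` to `{0, 1}` and `D = [p]²`) such that any five different elements of
`2^ω₁` include two pairs with different colours. So no `c`-monochromatic set has five or more
elements. -/
def NoFive : Prop :=
  ∃ w p D c : N, IsOmegaOne w ∧ IsCantor p w ∧ IsPairs D p ∧ IsMap c D w ∧ IsRegressive c p w ∧
    ∀ (i : N) (x : Fin 5 → N), (∀ k, x k ∈ p) → Function.Injective x →
      ∃ k l, k ≠ l ∧ ¬ Colour c (x k) (x l) i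

end Pool.Agent.FTwo
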