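import Pool.Agent.FTwo.Cnt
import Pool.Agent.FTwo.Defs
import Pool.Agent.FDia.Ext
import Pool.Agent.Frc.CH

/-!
# The extension by `2^ω₁` Cohen reals
-/

universe u

set_option linter.unusedSectionVars false

namespace Pool.Agent.FTwo

open Pool.Agent.SigB Pool.Agent.Forc Pool.Agent.Frc
open Pool.Agent.FDia (W1 exists_w1 exists_countable)

section

variable {M : Type u} [Membership M M] [IsZFC M] {w k : M} {G : M → Prop} {N : Type u}
  [Membership N N] {val : M → N}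

/-- The generic filter meets predense subsets of open sets which it meets. -/
theorem meet (hE : Ext (cnd k) (cle k) SigB.em G val) {A D : M}
    (hA : Sb A D) (hD : Sb D (cnd k)) (hDd : ∀ q r, q ∈ D → op r q ∈ cle k → r ∈ D)
    (hAD : ∀ q, q ∈ D → ∃ p, p ∈ A ∧ ¬ Inc p q) (h : ∃ p, G p ∧ p ∈ D) : ∃ p, G p ∧ p ∈ A := by
  obtain ⟨p, hp, hpD⟩ := h
  obtain ⟨q, hq, s, hs, hsq⟩ := hE.gen.below (cPO k) (p := p)
    (Q := fun q => ∃ s, s ∈ A ∧ Sb s q) (by simp (maxDischargeDepth := 50)) hp (by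
      intro q hq
      obtain ⟨s, hs, hi⟩ := hAD q (hDd _ _ hpD hq)
      have h1 := un_mem_cnd (hD s (hA s hs)) (op_mem_cle.1 hq).1.1 hi
      exact ⟨un s q, op_mem_cle.2 ⟨⟨h1, (op_mem_cle.1 hq).1.1⟩, sb_un_right s q⟩, s, hs,
        sb_un_left s q⟩)
  exact ⟨s, hE.gen.up q s hq (op_mem_cle.2 ⟨⟨hE.gen.mem q hq, hD s (hA s hs)⟩, hsq⟩), hs⟩

variable [IsZFC N]

/-- `ω₁` remains uncountable. -/
theorem w1_not_le (hw : W1 w) (hE : Ext (cnd k) (cle k) SigB.em G val) :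
    ¬ Le (val (ck SigB.em w)) (SigB.om : N) := by
  rintro ⟨g, hg, hgi⟩
  obtain ⟨hg1, hg2⟩ := mem_fs.1 hg
  obtain ⟨F, hF, hFP, hFm, hFd, hFt⟩ := hE.forcing2 (R := fun x y => op x y ∈ g)
    (by simp (maxDischargeDepth := 50))
  have hF' : ∀ {n : ℕ} {s t r : (Fin n → M) → M}, DT s → DT t → DT r →
      Dfn fun v => F (s v) (t v) (r v) := fun hs ht hr => dfn3 hF hs ht hr
  let D : M → M := fun n => sp (cnd k) fun p => ∃ α, α ∈ w ∧ F p (ck SigB.em α) (ck SigB.em n)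
  have hD : DT (fun w : Fin 1 → M => D (w 0)) := by
    simp (maxDischargeDepth := 50) [D, hF']
  have hD' : ∀ {n : ℕ} {s : (Fin n → M) → M}, DT s → DT fun v => D (s v) := fun hs => dt1 hD hs
  have hDm : ∀ n p, p ∈ D n ↔ p ∈ cnd k ∧ ∃ α, α ∈ w ∧ F p (ck SigB.em α) (ck SigB.em n) :=
    fun n p => mem_sp (by simp (maxDischargeDepth := 50) [hF'])
  obtain ⟨A, hA, hAs⟩ := choice' (a := (SigB.om : M)) (b := pw (cnd k))
    (P := fun n A => Sb A (D n) ∧ Le A (SigB.om : M) ∧ ∀ q, q ∈ D n → ∃ p, p ∈ A ∧ ¬ Inc p q)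
    (by simp (maxDischargeDepth := 50) [hD']) (by
      intro n hn
      have h1 : Sb (D n) (cnd k) := fun p hp => ((hDm n p).1 hp).1
      obtain ⟨A, h2, h3, h4⟩ := exists_pred h1
      exact ⟨A, mem_pw.2 (h2.trans h1), h2, h3, h4⟩)
  obtain ⟨H, hH, hHs⟩ := choice' (a := pd (SigB.om : M) (cnd k)) (b := w)
    (P := fun z α => ∀ n p, z = op n p → p ∈ D n → F p (ck SigB.em α) (ck SigB.em n))
    (by simp (maxDischargeDepth := 50) [hD', hF']) (by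
      intro z hz
      obtain ⟨n, hn, p, hp, rfl⟩ := mem_pd.1 hz
      by_cases h : p ∈ D n
      · obtain ⟨-, α, hα, h1⟩ := (hDm n p).1 h
        refine ⟨α, hα, fun n' p' he _ => ?_⟩
        obtain ⟨rfl, rfl⟩ := op_inj.1 he
        exact h1
      · refine ⟨SigB.em, (hw.mem _ ord_em).2 (le_of_empty not_mem_em), fun n' p' he h' => ?_⟩
        obtain ⟨rfl, rfl⟩ := op_inj.1 he
        exact absurd h' h)
  have hI : ∀ n : M, DT (fun w : Fin 1 → M => ap H (op n (w 0))) := fun n => by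
    simp (maxDischargeDepth := 50)
  have hJ : DT (fun w : Fin 1 → M => im (ap A (w 0)) fun p => ap H (op (w 0) p)) := by
    simp (maxDischargeDepth := 50)
  have hU : Le (sU (im (SigB.om : M) fun n => im (ap A n) fun p => ap H (op n p)))
      (SigB.om : M) := by
    refine Le.union om_ord (Sb.refl _) (le_om_im (Le.refl _) hJ) fun y hy => ?_
    obtain ⟨n, hn, rfl⟩ := (mem_im hJ).1 hy
    exact le_om_im (hAs n hn).2.1 (hI n)
  refine hw.nle (hU.mono_left fun α hα => ?_)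
  have hα' : val (ck SigB.em α) ∈ val (ck SigB.em w) := hE.cv_mem.2 hα
  have h1 := hg2 _ hα'
  rw [← hE.cv_om] at h1
  obtain ⟨n, hn, he⟩ := hE.mem_cv.1 h1
  have h2 := (hg1.op_mem_iff hα').2 he
  obtain ⟨p, hp, hFp⟩ := (hFt _ _).1 h2
  obtain ⟨hA1, -, hA3⟩ := hAs n hn
  obtain ⟨q, hq, hqA⟩ := meet hE (A := ap A n) (D := D n) hA1
    (fun p hp => ((hDm n p).1 hp).1) (by
      intro q r hq hr
      obtain ⟨-, β, hβ, h3⟩ := (hDm n q).1 hq
      exact (hDm n r).2 ⟨(op_mem_cle.1 hr).1.1, β, hβ, hFm _ _ _ _ h3 hr⟩) hA3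
    ⟨p, hp, (hDm n p).2 ⟨hE.gen.mem p hp, α, hα, hFp⟩⟩
  have hqc := hE.gen.mem q hq
  have h3 := hHs _ (op_mem_pd.2 ⟨hn, hqc⟩) n q rfl (hA1 q hqA)
  have hβ := (mem_fs.1 hH).2 _ (op_mem_pd.2 ⟨hn, hqc⟩)
  have h4 : op (val (ck SigB.em (ap H (op n q)))) (val (ck SigB.em n)) ∈ g :=
    (hFt _ _).2 ⟨q, hq, h3⟩
  have hβ' : val (ck SigB.em (ap H (op n q))) ∈ val (ck SigB.em w) := hE.cv_mem.2 hβ
  have h5 : α = ap H (op n q) := by
    refine hE.cv_inj.1 (hgi _ _ hα' hβ' ?_)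
    rw [(hg1.op_mem_iff hα').1 h2, (hg1.op_mem_iff hβ').1 h4]
  exact mem_sU.2 ⟨_, (mem_im hJ).2 ⟨n, hn, rfl⟩, (mem_im (hI n)).2 ⟨q, hqA, h5⟩⟩

theorem isOmegaOne (hw : W1 w) (hE : Ext (cnd k) (cle k) SigB.em G val) :
    IsOmegaOne (val (ck SigB.em w)) := by
  refine isOmegaOne_iff.2 ⟨hE.cv_ord.2 hw.ord, w1_not_le hw hE, fun x hx => ?_⟩
  obtain ⟨α, hα, rfl⟩ := hE.mem_cv.1 hx
  have h6 := hE.cv_le ((hw.mem α (hw.ord.mem hα)).1 hα)
  rwa [hE.cv_om] at h6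

/-- Nice names for the subsets of `ω₁`. -/
theorem nice (hE : Ext (cnd k) (cle k) SigB.em G val) (x : N) :
    ∃ S, S ∈ nic w k ∧ ∀ a, a ∈ w → (val (ck SigB.em a) ∈ x ↔ ∃ p, G p ∧ op a p ∈ S) := by
  obtain ⟨F, hF, hFP, hFm, hFd, hFt⟩ := hE.forcing1 (R := fun y => y ∈ x)
    (by simp (maxDischargeDepth := 50))
  have hF' : ∀ {n : ℕ} {s t : (Fin n → M) → M}, DT s → DT t →
      Dfn fun v => F (s v) (t v) := fun hs ht => dfn2 hF hs ht
  let D : M → M := fun a => sp (cnd k) fun p => F p (ck SigB.em a)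
  have hD : DT (fun w : Fin 1 → M => D (w 0)) := by
    simp (maxDischargeDepth := 50) [D, hF']
  have hD' : ∀ {n : ℕ} {s : (Fin n → M) → M}, DT s → DT fun v => D (s v) := fun hs => dt1 hD hs
  have hDm : ∀ a p, p ∈ D a ↔ p ∈ cnd k ∧ F p (ck SigB.em a) :=
    fun n p => mem_sp (by simp (maxDischargeDepth := 50) [hF'])
  obtain ⟨A, hA, hAs⟩ := choice' (a := w) (b := pw (cnd k))
    (P := fun n A => Sb A (D n) ∧ Le A (SigB.om : M) ∧ ∀ q, q ∈ D n → ∃ p, p ∈ A ∧ ¬ Inc p q)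
    (by simp (maxDischargeDepth := 50) [hD']) (by
      intro n hn
      have h1 : Sb (D n) (cnd k) := fun p hp => ((hDm n p).1 hp).1
      obtain ⟨A, h2, h3, h4⟩ := exists_pred h1
      exact ⟨A, mem_pw.2 (h2.trans h1), h2, h3, h4⟩)
  have hSd : Dfn (fun v : Fin 1 → M => ∃ a p, v 0 = op a p ∧ p ∈ ap A a) := by
    simp (maxDischargeDepth := 50)
  have hSm : ∀ a p, op a p ∈ sp (pd w (cnd k)) (fun z => ∃ a p, z = op a p ∧ p ∈ ap A a) ↔
      (a ∈ w ∧ p ∈ cnd k) ∧ p ∈ ap A a := by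
    intro a p
    rw [mem_sp hSd, op_mem_pd]
    refine and_congr_right fun _ => ⟨?_, fun h => ⟨a, p, rfl, h⟩⟩
    rintro ⟨a', p', he, h⟩
    obtain ⟨rfl, rfl⟩ := op_inj.1 he
    exact h
  refine ⟨sp (pd w (cnd k)) (fun z => ∃ a p, z = op a p ∧ p ∈ ap A a), mem_nic.2
    ⟨fun z hz => ((mem_sp hSd).1 hz).1, fun a ha => ?_⟩, fun a ha => ?_⟩
  · exact (hAs a ha).2.1.mono_left fun p hp => ((hSm a p).1 (mem_sec.1 hp).2).2
  · obtain ⟨hA1, -, hA3⟩ := hAs a ha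
    rw [hFt]
    constructor
    · rintro ⟨p, hp, hFp⟩
      obtain ⟨q, hq, hqA⟩ := meet hE (A := ap A a) (D := D a) hA1
        (fun p hp => ((hDm a p).1 hp).1) (by
          intro q r hq hr
          exact (hDm a r).2 ⟨(op_mem_cle.1 hr).1.1, hFm _ _ _ ((hDm a q).1 hq).2 hr⟩) hA3
        ⟨p, hp, (hDm a p).2 ⟨hE.gen.mem p hp, hFp⟩⟩
      exact ⟨q, hq, (hSm a q).2 ⟨⟨ha, hE.gen.mem q hq⟩, hqA⟩⟩
    · rintro ⟨p, hp, h⟩
      exact ⟨p, hp, ((hDm a p).1 (hA1 p ((hSm a p).1 h).2)).2⟩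

/-- The power set of `ω₁` injects into the copy of `2^ω₁`. -/
theorem pw_le (hw : W1 w) (hk : SigB.Ord k) (hom : Sb SigB.om k) (h1 : Le (pw w) k)
    (h2 : Le k (pw w)) (hE : Ext (cnd k) (cle k) SigB.em G val) :
    Le (pw (val (ck SigB.em w))) (val (ck SigB.em k)) := by
  refine Le.trans ?_ (hE.cv_le (le_nic hw hk hom h1 h2))
  let D : N → N := fun c => sp (val (ck SigB.em w)) fun n =>
    ∃ q, q ∈ val (gnm SigB.em (cnd k)) ∧ op n q ∈ c
  have hDm : ∀ c n, n ∈ D c ↔ n ∈ val (ck SigB.em w) ∧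
      ∃ q, q ∈ val (gnm SigB.em (cnd k)) ∧ op n q ∈ c :=
    fun c n => mem_sp (by simp (maxDischargeDepth := 50))
  have hD : DT (fun w : Fin 1 → N => D (w 0)) := by simp (maxDischargeDepth := 50) [D]
  have hD' : ∀ {n : ℕ} {s : (Fin n → N) → N}, DT s → DT fun v => D (s v) := fun hs => dt1 hD hs
  obtain ⟨f, hf, hfv⟩ := choice' (a := pw (val (ck SigB.em w))) (b := val (ck SigB.em (nic w k)))
    (P := fun x c => x = D c) (by simp (maxDischargeDepth := 50) [hD']) (by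
      intro x hx
      rw [mem_pw] at hx
      obtain ⟨S, hS, hSx⟩ := nice (w := w) hE x
      refine ⟨val (ck SigB.em S), hE.cv_mem.2 hS, ext' fun z => ?_⟩
      rw [hDm]
      constructor
      · intro hz
        obtain ⟨n, hn, rfl⟩ := hE.mem_cv.1 (hx z hz)
        obtain ⟨p, hp, h⟩ := (hSx n hn).1 hz
        exact ⟨hE.cv_mem.2 hn, _, hE.mem_gnm.2 ⟨p, hp, rfl⟩, hE.cv_op_mem.2 h⟩
      · rintro ⟨h1, q, hq, h⟩
        obtain ⟨n, hn, rfl⟩ := hE.mem_cv.1 h1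
        obtain ⟨p, hp, rfl⟩ := hE.mem_gnm.1 hq
        exact (hSx n hn).2 ⟨p, hp, hE.cv_op_mem.1 h⟩)
  exact ⟨f, hf, fun x y hx hy hxy => by rw [hfv x hx, hfv y hy, hxy]⟩

/-- The generic function as a set of pairs. -/
theorem mem_gen (hE : Ext (cnd k) (cle k) SigB.em G val) {x y : N} :
    op x y ∈ sU (val (gname (cnd k) SigB.em)) ↔ ∃ p a b, G p ∧ op a b ∈ p ∧
      x = val (ck SigB.em a) ∧ y = val (ck SigB.em b) := by
  rw [hE.mem_sU_gname]
  constructor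
  · rintro ⟨p, z, hp, hz, he⟩
    obtain ⟨a, -, b, -, rfl⟩ := mem_pd.1 ((mem_cnd.1 (hE.gen.mem p hp)).1 z hz)
    rw [hE.cv_op] at he
    obtain ⟨rfl, rfl⟩ := op_inj.1 he
    exact ⟨p, a, b, hp, hz, rfl, rfl⟩
  · rintro ⟨p, a, b, hp, hab, rfl, rfl⟩
    exact ⟨p, op a b, hp, hab, (hE.cv_op a b).symm⟩

/-- Two rows of free points. -/
theorem exists_free {j q a b : M} (hq : q ∈ cnd k) (ha : a ∈ k) (hb : b ∈ k)
    (hj : Inj j (pd k SigB.om)) :
    ∃ n, n ∈ (SigB.om : M) ∧ (∀ y, op (ap j (op a n)) y ∉ q) ∧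
      ∀ y, op (ap j (op b n)) y ∉ q := by
  by_contra hno
  push Not at hno
  obtain ⟨-, -, m, hm, hle⟩ := mem_cnd.1 hq
  obtain ⟨f, hf, hfs⟩ := choice' (a := (SigB.om : M)) (b := q)
    (P := fun n z => ∃ c y, (c = a ∨ c = b) ∧ z = op (ap j (op c n)) y)
    (by simp (maxDischargeDepth := 50)) (by
      intro n hn
      by_cases h : ∀ y, op (ap j (op a n)) y ∉ q
      · obtain ⟨y, hy⟩ := hno n hn h
        exact ⟨_, hy, b, y, Or.inr rfl, rfl⟩
      · push Not at h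
        obtain ⟨y, hy⟩ := h
        exact ⟨_, hy, a, y, Or.inl rfl, rfl⟩)
  refine not_le_om hm (Le.trans ⟨f, hf, fun n n' hn hn' he => ?_⟩ hle)
  obtain ⟨c, y, hc, h1⟩ := hfs n hn
  obtain ⟨c', y', hc', h1'⟩ := hfs n' hn'
  rw [he, h1'] at h1
  have hck : ∀ c, (c = a ∨ c = b) → c ∈ k := by
    rintro c (rfl | rfl)
    · exact ha
    · exact hb
  have h2 := hj _ _ (op_mem_pd.2 ⟨hck _ hc', hn'⟩) (op_mem_pd.2 ⟨hck _ hc, hn⟩) (op_inj.1 h1).1
  exact (op_inj.1 h2).2.symm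

/-- The Cohen reals are different. -/
theorem le_pw (hk : SigB.Ord k) (hom : Sb SigB.om k)
    (hE : Ext (cnd k) (cle k) SigB.em G val) :
    Le (val (ck SigB.em k)) (pw (SigB.om : N)) := by
  classical
  obtain ⟨j, hj, hji⟩ := ((Le.refl k).pd (Le.of_sb hom)).trans (hess hk hom)
  obtain ⟨hj1, hj2⟩ := mem_fs.1 hj
  have h10 : (SigB.em : M) ≠ Forc.one := fun h' => by
    have h1 : (SigB.em : M) ∈ (Forc.one : M) := mem_sc_self _
    rw [← h'] at h1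
    exact not_mem_em _ h1
  let g : N := sU (val (gname (cnd k) SigB.em))
  let J : N := val (ck SigB.em j)
  let I : N := val (ck SigB.em Forc.one)
  let R : N → N := fun a => sp (SigB.om : N) fun n => op (ap J (op a n)) I ∈ g
  have hR : DT (fun w : Fin 1 → N => R (w 0)) := by simp (maxDischargeDepth := 50) [R]
  have hRm : ∀ a n, n ∈ R a ↔ n ∈ (SigB.om : N) ∧ op (ap J (op a n)) I ∈ g := fun a n =>
    mem_sp (by simp (maxDischargeDepth := 50))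
  have hJ : ∀ a n, a ∈ k → n ∈ (SigB.om : M) →
      ap J (op (val (ck SigB.em a)) (val (ck SigB.em n))) =
        val (ck SigB.em (ap j (op a n))) := by
    intro a n ha hn
    rw [← hE.cv_op]
    exact hE.ap_cv hj1 (op_mem_pd.2 ⟨ha, hn⟩)
  refine Le.mk (F := R) hR (fun a _ => mem_pw.2 fun n hn => ((hRm a n).1 hn).1) ?_
  intro x y hx hy he
  obtain ⟨a, ha, rfl⟩ := hE.mem_cv.1 hx
  obtain ⟨b, hb, rfl⟩ := hE.mem_cv.1 hy
  by_contra hne
  have hab : a ≠ b := fun h => hne (by rw [h])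
  obtain ⟨q, hq, n, hn, h1, h2⟩ := hE.gen.below (cPO k) (p := SigB.em)
    (Q := fun q => ∃ n, n ∈ (SigB.om : M) ∧ op (ap j (op a n)) Forc.one ∈ q ∧
      op (ap j (op b n)) SigB.em ∈ q) (by simp (maxDischargeDepth := 50)) hE.gen.one (by
      intro q hq
      have hqc := (op_mem_cle.1 hq).1.1
      obtain ⟨n, hn, h1, h2⟩ := exists_free hqc ha hb hji
      have h3 := exists_add hqc (hj2 _ (op_mem_pd.2 ⟨ha, hn⟩)) (mem_sc_self _) h1
      have h4 := exists_add h3 (hj2 _ (op_mem_pd.2 ⟨hb, hn⟩))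
        (mem_sc.2 (Or.inl (mem_sc_self _)) : (SigB.em : M) ∈ (two : M)) (by
          intro y hy
          rcases mem_un.1 hy with h5 | h5
          · exact h2 y h5
          · rw [mem_pr, or_self] at h5
            have h6 := hji _ _ (op_mem_pd.2 ⟨hb, hn⟩) (op_mem_pd.2 ⟨ha, hn⟩) (op_inj.1 h5).1
            exact hab (op_inj.1 h6).1.symm)
      exact ⟨_, op_mem_cle.2 ⟨⟨h4, hqc⟩, (sb_un_left _ _).trans (sb_un_left _ _)⟩, n, hn,
        mem_un.2 (Or.inl (mem_un.2 (Or.inr (by simp)))), mem_un.2 (Or.inr (by simp))⟩)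
  have hn' : val (ck SigB.em n) ∈ (SigB.om : N) := by
    rw [← hE.cv_om]
    exact hE.cv_mem.2 hn
  have h3 : val (ck SigB.em n) ∈ R (val (ck SigB.em a)) := by
    refine (hRm _ _).2 ⟨hn', ?_⟩
    rw [hJ a n ha hn]
    exact (mem_gen hE).2 ⟨q, _, _, hq, h1, rfl, rfl⟩
  rw [he] at h3
  have h4 := ((hRm _ _).1 h3).2
  rw [hJ b n hb hn] at h4
  obtain ⟨p, c, d, hp, hcd, h5, h6⟩ := (mem_gen hE).1 h4
  rw [hE.cv_inj] at h5
  have h6' : Forc.one = d := hE.cv_inj.1 h6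
  subst h5
  subst h6'
  obtain ⟨r, hr, hrp, hrq⟩ := hE.gen.dir p q hp hq
  have h7 := (mem_cnd.1 (hE.gen.mem r hr)).2.1 _ _ _ ((op_mem_cle.1 hrp).2 _ hcd)
    ((op_mem_cle.1 hrq).2 _ h2)
  exact h10 h7.symm

end

/-- If there is a model of ZFC then there is a model of ZFC and `2^ω = 2^ω₁`. -/
theorem exists_two (M : Type u) [Membership M M] [IsZFC M] :
    ∃ (N : Type u) (_ : Membership N N) (_ : IsZFC N) (w : N), IsOmegaOne w ∧
      Le (pw w) (pw (SigB.om : N)) := by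
  obtain ⟨M₀, i₀, iz₀, hc⟩ := exists_countable M
  obtain ⟨w, hw⟩ := exists_w1 (M := M₀)
  obtain ⟨k, hk, hom, h1, h2⟩ := exists_k hw
  obtain ⟨G, hGen, -⟩ := exists_gen (cPO k) (em_mem_cnd k)
  obtain ⟨N, iN, val, hE⟩ := exists_ext (cPO k) hGen
  have iZ : IsZFC N := hE.isZFC
  exact ⟨N, iN, iZ, val (ck SigB.em w), isOmegaOne hw hE,
    (pw_le hw hk hom h1 h2 hE).trans (le_pw hk hom hE)⟩

end Pool.Agent.FTwo
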